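import Pool.Agent.helper38.FC.T4
import Pool.Agent.helper53.MT.TR11b
import Pool.Agent.helper99.FC.T2

/-!
# Five coefficients, module T5: the sum over `n` of the sieve weight, form `m` prime
-/

namespace Pool.Agent.helper85.FC

open Finset Real ArithmeticFunction Pool.Agent.helper39.MT

open Filter Topology in
lemma T5_small (n : ℕ) {c : ℝ} (hc : 0 < c) (b : ℝ) :
    ∀ᶠ a : ℝ in atTop, b * (a ^ n * Real.exp (-(c * a))) ≤ 1 / 2 := by
  have h1 := Real.tendsto_pow_mul_exp_neg_atTop_nhds_zero n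
  have h2 : Tendsto (fun L : ℝ => c * L) atTop atTop :=
    tendsto_id.const_mul_atTop hc
  have h3 := ((h1.comp h2).const_mul (b * (1 / c) ^ n))
  rw [mul_zero] at h3
  have h4 : Tendsto (fun L : ℝ => b * (L ^ n * Real.exp (-(c * L)))) atTop (𝓝 0) := by
    refine h3.congr fun L => ?_
    simp only [Function.comp]
    rw [mul_pow, div_pow, one_pow]
    field_simp
  filter_upwards [h4.eventually (gt_mem_nhds (show (0 : ℝ) < 1 / 2 by norm_num))] with a ha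
  exact ha.le

/-- T5 for one form, from the statements of T1, T2 and B8. -/
theorem T5_core
    (hshift : ∀ (A B : ℕ) (_ : 0 < A), ∃ C a₁ : ℝ, 0 < C ∧ ∀ a : ℝ, a₁ ≤ a → ∀ n : ℕ, 0 < n →
      |wt 1 a n - A * wt 1 (a + Real.log A) (A * n + B)| ≤
        (if Real.exp a ≤ n ∧ (n : ℝ) ≤ Real.exp (a + 2) then C / (n : ℝ) ^ 2 else 0))
    (hlab : ∀ (k W R : ℕ) (Y : ℝ) (X : ℕ → ℝ) (_ : ∀ D, 0 ≤ X D) (t : ℕ),
      ∑ τ : PS W R → Option (Fin k) with (dd (fun p : PS W R => (p : ℕ)) τ : ℝ) ≤ Y,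
          (t : ℝ) ^ (#{p | τ p ≠ none}) * X (dd (fun p : PS W R => (p : ℕ)) τ)
        ≤ ∑ D ∈ Icc 1 ⌊Y⌋₊ with Squarefree D ∧ Nat.Coprime D W,
          ((t * k : ℕ) : ℝ) ^ D.primeFactors.card * X D)
    (hbv : ∀ (A : ℕ) (_ : 0 < A) (ε : ℝ) (_ : 0 < ε) (_ : ε ≤ 1 / 4) (K h : ℕ),
      ∃ a₁ : ℝ, ∀ a : ℝ, a₁ ≤ a → ∃ E : ℕ → ℝ, (∀ D, 0 ≤ E D) ∧
        (∀ D b : ℕ, 0 < D → (D : ℝ) ≤ Real.exp ((1 / 2 - ε) * a) → Nat.Coprime b (A * D) →
          EP (a + Real.log A) (A * D) b ≤ E D) ∧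
        ∑ D ∈ Icc 1 ⌊Real.exp ((1 / 2 - ε) * a)⌋₊ with Squarefree D ∧ Nat.Coprime D A,
          (h : ℝ) ^ D.primeFactors.card * E D ≤ 1 / a ^ K)
    {k D₀ W : ℕ} {A B : Fin k → ℕ} (h : Std k D₀ A B W) (hk : 2 ≤ k)
    (hD : 4 * k + 4 ≤ D₀) (ε : ℝ) (hε : 0 < ε) (hε1 : ε ≤ 1 / 8) (K : ℕ) (m : Fin k) :
    ∃ a₁ : ℝ, ∀ a : ℝ, a₁ ≤ a → ∀ R : ℕ, 2 ≤ R → (R : ℝ) ≤ Real.exp (a / 2) →
      ∀ y : (PS W R → Option (Fin k)) → ℝ, (∀ σ, |y σ| ≤ 1) →
      (∀ σ, y σ ≠ 0 → (dd (fun p : PS W R => (p : ℕ)) σ : ℝ) ≤ Real.exp ((1 / 4 - ε) * a)) →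
      |∑ n ∈ Ioc 0 (NN 1 a), wt 1 a n * lam (A m * n + B m) *
          FF (fun p : PS W R => (p : ℕ)) y (pat A B (PS W R) n) ^ 2
        - (W : ℝ) / Nat.totient W * pmass (a + Real.log (A m)) *
            Ex (fun p : PS W R => mu1 m (p : ℝ))
              (fun e => FF (fun p : PS W R => (p : ℕ)) y e ^ 2)| ≤ 1 / a ^ K := by
  obtain ⟨C1, Lb, hC1, hS2⟩ := T4_S2_one_of hshift h hk hD m
  obtain ⟨La, hbv⟩ := hbv (A m) (h.Apos m) (2 * ε) (by linarith) (by linarith)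
    (K + 2 * k + 1) (6 * k)
  obtain ⟨C3, hC3, hprod⟩ := prod_small k
  obtain ⟨C4, hC4, hpow⟩ := pow_omega_le (6 * k)
  obtain ⟨Le, hsmall⟩ := Filter.eventually_atTop.1
    (T5_small (K + 2 * k + 1) (show (0 : ℝ) < 3 / 8 by norm_num) (C3 * C1 * C4))
  refine ⟨max 2 (max La (max Lb (max Le (2 * (C3 * A m))))), fun a hL R hR2 hR y hy hy' => ?_⟩
  simp only [max_le_iff] at hL
  obtain ⟨hL2, hLa, hLb, hLe, hLf⟩ := hL
  have hL0 : 0 < a := by linarith
  specialize hbv a hLa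
  specialize hS2 a hLb R hR
  specialize hsmall a hLe
  obtain ⟨E, hE0, hE1, hE2⟩ := hbv
  set pr : PS W R → ℕ := fun p => (p : ℕ) with hprdef
  have hsmallW : ∀ p : ℕ, p.Prime → p ≤ 4 * k + 4 → p ∣ W := fun p hp hle =>
    h.small p hp (hle.trans hD)
  have hpr : ∀ p : PS W R, 4 * k + 4 ≤ pr p := by
    intro p
    by_contra hcon
    exact (mem_PS.1 p.2).2.2 (hsmallW p (mem_PS.1 p.2).2.1 (by
      simp only [hprdef] at hcon; omega))
  obtain ⟨c, hc1, hc2, hc3⟩ := FF_expand pr hpr y hy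
  set Y : ℝ := Real.exp ((1 / 2 - 2 * ε) * a) with hY
  have hY1 : 1 ≤ Y := Real.one_le_exp (by
    refine mul_nonneg ?_ hL0.le
    linarith)
  have hdd : ∀ τ, c τ ≠ 0 → (dd pr τ : ℝ) ≤ Y := by
    intro τ hτ
    obtain ⟨σ, σ', h1, h2, h3⟩ := hc3 τ hτ
    have h4 := Nat.le_of_dvd (Nat.mul_pos (TR11b.dd_pos σ) (TR11b.dd_pos σ'))
      (TR11b.dd_dvd_mul h3)
    have h5 : (dd pr τ : ℝ) ≤ (dd pr σ : ℝ) * (dd pr σ' : ℝ) := by exact_mod_cast h4
    refine h5.trans ?_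
    have h6 : (dd pr σ : ℝ) * (dd pr σ' : ℝ) ≤
        Real.exp ((1 / 4 - ε) * a) * Real.exp ((1 / 4 - ε) * a) :=
      mul_le_mul (hy' σ h1) (hy' σ' h2) (Nat.cast_nonneg _) (Real.exp_pos _).le
    refine h6.trans (le_of_eq ?_)
    rw [← Real.exp_add, hY]
    congr 1
    ring
  have hYa : Y ≤ Real.exp a := Real.exp_le_exp.2 (by nlinarith)
  -- abbreviations
  set μ : PS W R → Option (Fin k) → ℝ := fun p => mu1 m ((p : ℕ) : ℝ) with hμdef
  set I : (PS W R → Option (Fin k)) → ℝ := fun τ => ∑ n ∈ Ioc 0 (NN 1 a),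
    wt 1 a n * lam (A m * n + B m) * ind τ (pat A B (PS W R) n) with hIdef
  set S₁ : ℝ := pmass (a + Real.log (A m)) with hS₁
  set X : ℝ := (W : ℝ) / Nat.totient W with hX
  set CP : ℝ := ∏ p : PS W R, (1 + (k : ℝ) / (((p : ℕ) : ℝ) - 1)) ^ 2 with hCP
  have hR0 : (1 : ℝ) ≤ R := by
    have : 1 ≤ R := by omega
    exact_mod_cast this
  have hCP0 : 0 ≤ CP := Finset.prod_nonneg fun p _ => sq_nonneg _
  have hCPle : CP ≤ C3 * a ^ (2 * k) := by
    refine (hprod W R hR2 hsmallW).trans ?_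
    refine mul_le_mul_of_nonneg_left ?_ hC3.le
    refine pow_le_pow_left₀ (Real.log_nonneg hR0) ?_ _
    have h1 : Real.log R ≤ a / 2 := by
      rw [Real.log_le_iff_le_exp (by linarith)]; exact hR
    linarith
  -- the two sums in terms of the coefficients
  have hsumI : ∑ n ∈ Ioc 0 (NN 1 a), wt 1 a n * lam (A m * n + B m) *
      FF pr y (pat A B (PS W R) n) ^ 2 = ∑ τ, c τ * I τ := by
    simp only [hc1, hIdef, Finset.mul_sum]
    rw [Finset.sum_comm]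
    refine Finset.sum_congr rfl fun τ _ => Finset.sum_congr rfl fun n _ => by ring
  have hEx : Ex μ (fun e => FF pr y e ^ 2) = ∑ τ, c τ * Ex μ (ind τ) := by
    have : (fun e => FF pr y e ^ 2) = fun e => ∑ τ, c τ * ind τ e := by
      funext e; exact hc1 e
    rw [this]
    exact TR11b.Ex_sum μ c ind
  set e5 := a * Real.exp (-a) with he5
  have he5pos : 0 < e5 := mul_pos hL0 (Real.exp_pos _)
  -- the error for each label
  have herr : ∀ τ, |c τ * I τ - X * S₁ * (c τ * Ex μ (ind τ))|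
      ≤ if (dd pr τ : ℝ) ≤ Y then CP * ((6 : ℝ) ^ (#{p | τ p ≠ none})
          * (A m * E (dd pr τ) + C1 * e5)) else 0 := by
    intro τ
    have hnn : 0 ≤ A m * E (dd pr τ) + C1 * e5 := by
      have := hE0 (dd pr τ)
      positivity
    by_cases hτ : c τ = 0
    · rw [hτ]
      simp only [zero_mul, mul_zero, sub_zero, abs_zero]
      split_ifs
      · positivity
      · exact le_rfl
    · have hle := hdd τ hτ
      rw [if_pos hle]
      obtain ⟨b, hb1, hb2⟩ := hS2 τ (hle.trans hYa)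
      have hEE := hE1 (dd pr τ) b (TR11b.dd_pos τ) hle hb1
      have e1 : c τ * I τ - X * S₁ * (c τ * Ex μ (ind τ))
          = c τ * (I τ - X * S₁ * Ex μ (ind τ)) := by ring
      rw [e1, abs_mul]
      calc |c τ| * |I τ - X * S₁ * Ex μ (ind τ)|
          ≤ (CP * 6 ^ (#{p | τ p ≠ none})) * (A m * E (dd pr τ) + C1 * e5) := by
            refine mul_le_mul (hc2 τ) ?_ (abs_nonneg _) (by positivity)
            refine hb2.trans ?_
            have h2 : (A m : ℝ) * EP (a + Real.log (A m)) (A m * dd pr τ) b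
                ≤ A m * E (dd pr τ) :=
              mul_le_mul_of_nonneg_left hEE (by positivity)
            have h3 : C1 * a * Real.exp (-a) = C1 * e5 := by rw [he5]; ring
            rw [h3]
            linarith
        _ = CP * ((6 : ℝ) ^ (#{p | τ p ≠ none}) * (A m * E (dd pr τ) + C1 * e5)) := by ring
  -- summation over the labels
  have hYfl : ((⌊Y⌋₊ : ℕ) : ℝ) ≤ Y := Nat.floor_le (by linarith)
  have htot : |(∑ τ, c τ * I τ) - X * S₁ * ∑ τ, c τ * Ex μ (ind τ)|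
      ≤ CP * (A m * (1 / a ^ (K + 2 * k + 1)) + C1 * e5 * (C4 * Real.exp (5 / 8 * a))) := by
    have h1 : (∑ τ, c τ * I τ) - X * S₁ * ∑ τ, c τ * Ex μ (ind τ)
        = ∑ τ, (c τ * I τ - X * S₁ * (c τ * Ex μ (ind τ))) := by
      rw [Finset.mul_sum, ← Finset.sum_sub_distrib]
    rw [h1]
    refine (Finset.abs_sum_le_sum_abs _ _).trans ?_
    refine (Finset.sum_le_sum fun τ _ => herr τ).trans ?_
    rw [← Finset.sum_filter, ← Finset.mul_sum]
    refine mul_le_mul_of_nonneg_left ?_ hCP0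
    have h2 := hlab k W R Y (fun D => A m * E D + C1 * e5) (fun D => by
      have := hE0 D; positivity) 6
    refine (le_of_eq (by simp only [Nat.cast_ofNat]; rfl)).trans (h2.trans ?_)
    have h3 : ∑ D ∈ Icc 1 ⌊Y⌋₊ with Squarefree D ∧ Nat.Coprime D W,
        ((6 * k : ℕ) : ℝ) ^ D.primeFactors.card * (A m * E D + C1 * e5)
        = A m * (∑ D ∈ Icc 1 ⌊Y⌋₊ with Squarefree D ∧ Nat.Coprime D W,
          ((6 * k : ℕ) : ℝ) ^ D.primeFactors.card * E D)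
          + C1 * e5 * ∑ D ∈ Icc 1 ⌊Y⌋₊ with Squarefree D ∧ Nat.Coprime D W,
          ((6 * k : ℕ) : ℝ) ^ D.primeFactors.card := by
      rw [Finset.mul_sum, Finset.mul_sum, ← Finset.sum_add_distrib]
      refine Finset.sum_congr rfl fun D _ => by ring
    rw [h3]
    have h4 : ∑ D ∈ Icc 1 ⌊Y⌋₊ with Squarefree D ∧ Nat.Coprime D W,
          ((6 * k : ℕ) : ℝ) ^ D.primeFactors.card * E D ≤ 1 / a ^ (K + 2 * k + 1) := by
      refine le_trans ?_ hE2
      refine Finset.sum_le_sum_of_subset_of_nonneg ?_ ?_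
      · intro D hD'
        simp only [Finset.mem_filter] at hD' ⊢
        refine ⟨hD'.1, hD'.2.1, ?_⟩
        by_contra hcon
        obtain ⟨q, hq, hq1, hq2⟩ := Nat.Prime.not_coprime_iff_dvd.1 hcon
        have hq3 := (h.dvdA m q hq).1 hq2
        have := Nat.Coprime.eq_one_of_dvd (Nat.Coprime.coprime_dvd_left hq1 hD'.2.2) hq3
        exact hq.one_lt.ne' this
      · intro D _ _
        exact mul_nonneg (by positivity) (hE0 D)
    have h5 : ∑ D ∈ Icc 1 ⌊Y⌋₊ with Squarefree D ∧ Nat.Coprime D W,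
          ((6 * k : ℕ) : ℝ) ^ D.primeFactors.card ≤ C4 * Real.exp (5 / 8 * a) := by
      calc ∑ D ∈ Icc 1 ⌊Y⌋₊ with Squarefree D ∧ Nat.Coprime D W,
            ((6 * k : ℕ) : ℝ) ^ D.primeFactors.card
          ≤ ∑ D ∈ Icc 1 ⌊Y⌋₊, ((6 * k : ℕ) : ℝ) ^ D.primeFactors.card :=
            Finset.sum_le_sum_of_subset_of_nonneg (Finset.filter_subset _ _)
              (fun _ _ _ => by positivity)
        _ ≤ ∑ D ∈ Icc 1 ⌊Y⌋₊, C4 * Y ^ (1 / 4 : ℝ) := by
            refine Finset.sum_le_sum fun D hD' => ?_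
            have hD1 := Finset.mem_Icc.1 hD'
            refine (hpow D (by omega)).trans ?_
            refine mul_le_mul_of_nonneg_left ?_ hC4.le
            have hD3 : (D : ℝ) ≤ Y := le_trans (by exact_mod_cast hD1.2) hYfl
            exact Real.rpow_le_rpow (Nat.cast_nonneg _) hD3 (by norm_num)
        _ = ((⌊Y⌋₊ : ℕ) : ℝ) * (C4 * Y ^ (1 / 4 : ℝ)) := by
            rw [Finset.sum_const, Nat.card_Icc, nsmul_eq_mul]
            simp only [Nat.add_sub_cancel]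
        _ ≤ Y * (C4 * Y ^ (1 / 4 : ℝ)) :=
            mul_le_mul_of_nonneg_right hYfl (by positivity)
        _ = C4 * (Y * Y ^ (1 / 4 : ℝ)) := by ring
        _ ≤ C4 * Real.exp (5 / 8 * a) := by
            refine mul_le_mul_of_nonneg_left ?_ hC4.le
            rw [hY, ← Real.exp_mul, ← Real.exp_add]
            refine Real.exp_le_exp.2 ?_
            nlinarith
    have h6 : (0 : ℝ) ≤ A m := by positivity
    have h7 := mul_le_mul_of_nonneg_left h4 h6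
    have h8 := mul_le_mul_of_nonneg_left h5 (mul_nonneg hC1.le he5pos.le)
    linarith
  rw [← hsumI, ← hEx] at htot
  refine htot.trans ?_
  -- numerics
  have hA0 : (0 : ℝ) ≤ A m := by positivity
  have hexp : Real.exp (-a) * Real.exp (5 / 8 * a) = Real.exp (-(3 / 8 * a)) := by
    rw [← Real.exp_add]; congr 1; ring
  have hKp : 0 < a ^ K := by positivity
  calc CP * (A m * (1 / a ^ (K + 2 * k + 1)) + C1 * e5 * (C4 * Real.exp (5 / 8 * a)))
      ≤ (C3 * a ^ (2 * k)) * (A m * (1 / a ^ (K + 2 * k + 1))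
          + C1 * e5 * (C4 * Real.exp (5 / 8 * a))) := by
        refine mul_le_mul_of_nonneg_right hCPle (by positivity)
    _ = (C3 * A m) / a * (1 / a ^ K) + C3 * C1 * C4 * (a ^ (K + 2 * k + 1)
          * Real.exp (-(3 / 8 * a))) * (1 / a ^ K) := by
        rw [← hexp, he5, pow_add, pow_add, pow_one]
        field_simp
    _ ≤ 1 / 2 * (1 / a ^ K) + 1 / 2 * (1 / a ^ K) := by
        refine add_le_add (mul_le_mul_of_nonneg_right ?_ (by positivity))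
          (mul_le_mul_of_nonneg_right hsmall (by positivity))
        rw [div_le_iff₀ hL0]
        linarith
    _ = 1 / a ^ K := by ring

/-- T5 from the statement of B8. -/
theorem T5_S2_gen_of
    (hbv : ∀ (A : ℕ) (_ : 0 < A) (ε : ℝ) (_ : 0 < ε) (_ : ε ≤ 1 / 4) (K h : ℕ),
      ∃ a₁ : ℝ, ∀ a : ℝ, a₁ ≤ a → ∃ E : ℕ → ℝ, (∀ D, 0 ≤ E D) ∧
        (∀ D b : ℕ, 0 < D → (D : ℝ) ≤ Real.exp ((1 / 2 - ε) * a) → Nat.Coprime b (A * D) →
          EP (a + Real.log A) (A * D) b ≤ E D) ∧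
        ∑ D ∈ Icc 1 ⌊Real.exp ((1 / 2 - ε) * a)⌋₊ with Squarefree D ∧ Nat.Coprime D A,
          (h : ℝ) ^ D.primeFactors.card * E D ≤ 1 / a ^ K)
    {k D₀ W : ℕ} {A B : Fin k → ℕ} (h : Std k D₀ A B W) (hk : 2 ≤ k)
    (hD : 4 * k + 4 ≤ D₀) (ε : ℝ) (hε : 0 < ε) (hε1 : ε ≤ 1 / 8) (K : ℕ) :
    ∃ a₁ : ℝ, ∀ a : ℝ, a₁ ≤ a → ∀ R : ℕ, 2 ≤ R → (R : ℝ) ≤ Real.exp (a / 2) →
      ∀ y : (PS W R → Option (Fin k)) → ℝ, (∀ σ, |y σ| ≤ 1) →
      (∀ σ, y σ ≠ 0 → (dd (fun p : PS W R => (p : ℕ)) σ : ℝ) ≤ Real.exp ((1 / 4 - ε) * a)) →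
      ∀ m : Fin k,
      |∑ n ∈ Ioc 0 (NN 1 a), wt 1 a n * lam (A m * n + B m) *
          FF (fun p : PS W R => (p : ℕ)) y (pat A B (PS W R) n) ^ 2
        - (W : ℝ) / Nat.totient W * pmass (a + Real.log (A m)) *
            Ex (fun p : PS W R => mu1 m (p : ℝ))
              (fun e => FF (fun p : PS W R => (p : ℕ)) y e ^ 2)| ≤ 1 / a ^ K := by
  have h1 := fun m : Fin k => T5_core wt_shift1 sum_labels' hbv h hk hD ε hε hε1 K m
  choose L₁ hL₁ using h1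
  obtain ⟨M, hM⟩ := (Set.finite_range L₁).bddAbove
  refine ⟨M, fun a hL R hR2 hR y hy hy' m => ?_⟩
  exact hL₁ m a ((hM ⟨m, rfl⟩).trans hL) R hR2 hR y hy hy'

end Pool.Agent.helper85.FC
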