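import Pool.Agent.helper85.FC.Defs
import Pool.Agent.helper85.MT.Large
import Pool.Agent.helper35.MT.TR8

/-!
# Five coefficients, module B5: the error in progressions by primitive characters
-/

namespace Pool.Agent.helper85.FC

open Finset Real ArithmeticFunction Pool.Agent.helper39.MT

lemma B5_wt_le {a : ℝ} (n : ℕ) : wt 1 a n ≤ Real.exp (-a) := by
  by_cases h : (n : ℝ) ≤ Real.exp (1 / 2 + a)
  · rw [Pool.Agent.helper85.MT.wt_left one_pos h]
    exact (Real.exp_pos _).le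
  · push Not at h
    refine (Pool.Agent.helper85.MT.wt_le _ _ _).trans ?_
    rw [Real.exp_neg, ← one_div]
    refine one_div_le_one_div_of_le (Real.exp_pos _) ?_
    exact (Real.exp_le_exp.mpr (by linarith)).trans h.le

lemma B5_log2 {n : ℕ} {x : ℝ} (hx : 0 ≤ x) (h : (n : ℝ) ≤ Real.exp x) :
    ((Nat.log 2 n : ℕ) : ℝ) ≤ 2 * x := by
  rcases Nat.eq_zero_or_pos n with h0 | h0
  · rw [h0, Nat.log_zero_right]
    push_cast
    positivity
  · have h6 : (2 : ℝ) ^ Nat.log 2 n ≤ n := by exact_mod_cast Nat.pow_log_le_self 2 h0.ne'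
    have h7 := Real.log_le_log (by positivity) (h6.trans h)
    rw [Real.log_pow, Real.log_exp] at h7
    have h8 := Real.log_two_gt_d9
    have h9 : (0 : ℝ) ≤ (Nat.log 2 n : ℕ) := Nat.cast_nonneg _
    nlinarith

lemma B5_card_primeFactors {m : ℕ} (hm : 0 < m) : #m.primeFactors ≤ Nat.log 2 m := by
  refine Nat.le_log_of_pow_le (by norm_num) ?_
  calc 2 ^ #m.primeFactors = ∏ _p ∈ m.primeFactors, 2 := by rw [prod_const]
    _ ≤ ∏ p ∈ m.primeFactors, p :=
        prod_le_prod' fun p hp => (Nat.prime_of_mem_primeFactors hp).two_le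
    _ ≤ m := Nat.le_of_dvd hm (Nat.prod_primeFactors_dvd m)

/-- prime powers which are not prime to the modulus have little weight. -/
lemma B5_bad_sum {a : ℝ} (ha : 1 ≤ a) {m : ℕ} (hm : 0 < m) (hma : (m : ℝ) ≤ Real.exp a) :
    ∑ n ∈ Ioc 0 (NN 1 a) with ¬ Nat.Coprime n m, vonMangoldt n * wt 1 a n
      ≤ 32 * a ^ 3 * Real.exp (-a) := by
  set N := NN 1 a with hN
  have hNle : (N : ℝ) ≤ Real.exp (1 + a) := Nat.floor_le (Real.exp_pos _).le
  have hlogN : ∀ n : ℕ, n ∈ Ioc 0 N → Real.log n ≤ 1 + a := by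
    intro n hn
    rw [mem_Ioc] at hn
    rw [← Real.log_exp (1 + a)]
    exact Real.log_le_log (by exact_mod_cast hn.1) (le_trans (by exact_mod_cast hn.2) hNle)
  set S := (Ioc 0 N).filter (fun n => ¬ Nat.Coprime n m) with hS
  set S' := S.filter (fun n => IsPrimePow n) with hS'
  have h1 : ∑ n ∈ S, vonMangoldt n * wt 1 a n = ∑ n ∈ S', vonMangoldt n * wt 1 a n := by
    rw [hS']
    symm
    refine sum_filter_of_ne fun n _ h => ?_
    by_contra h'
    exact h (by rw [vonMangoldt_apply, if_neg h', zero_mul])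
  rw [h1]
  have h2 : ∀ n ∈ S', vonMangoldt n * wt 1 a n ≤ (1 + a) * Real.exp (-a) := by
    intro n hn
    rw [hS', mem_filter, hS, mem_filter] at hn
    have hΛ : vonMangoldt n ≤ 1 + a := (vonMangoldt_le_log (n := n)).trans (hlogN n hn.1.1)
    exact mul_le_mul hΛ (B5_wt_le n) (Pool.Agent.helper85.MT.wt_nonneg _ _ _) (by linarith)
  refine (sum_le_sum h2).trans ?_
  rw [sum_const, nsmul_eq_mul]
  have hcard : ((#S' : ℕ) : ℝ) ≤ (2 * a) * (2 * (1 + a)) := by
    have hsub : S' ⊆ (m.primeFactors ×ˢ Icc 1 (Nat.log 2 N)).image (fun p => p.1 ^ p.2) := by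
      intro n hn
      rw [hS', mem_filter, hS, mem_filter, mem_Ioc] at hn
      obtain ⟨⟨⟨hn0, hnN⟩, hcop⟩, hpp⟩ := hn
      rw [isPrimePow_nat_iff] at hpp
      obtain ⟨p, k, hp, hk, rfl⟩ := hpp
      rw [mem_image]
      refine ⟨(p, k), ?_, rfl⟩
      rw [mem_product, Nat.mem_primeFactors, mem_Icc]
      refine ⟨⟨hp, ?_, hm.ne'⟩, hk, ?_⟩
      · by_contra h
        exact hcop (Nat.Coprime.pow_left k ((Nat.Prime.coprime_iff_not_dvd hp).mpr h))
      · refine Nat.le_log_of_pow_le (by norm_num) ?_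
        exact (Nat.pow_le_pow_left hp.two_le k).trans hnN
    have h3 := (card_le_card hsub).trans card_image_le
    rw [card_product, Nat.card_Icc, Nat.add_sub_cancel] at h3
    have h4 : ((#m.primeFactors : ℕ) : ℝ) ≤ 2 * a := by
      refine le_trans ?_ (B5_log2 (by linarith) hma)
      exact_mod_cast B5_card_primeFactors hm
    have h5 : ((Nat.log 2 N : ℕ) : ℝ) ≤ 2 * (1 + a) := B5_log2 (by linarith) hNle
    have h6 : ((#S' : ℕ) : ℝ) ≤ (#m.primeFactors : ℕ) * (Nat.log 2 N : ℕ) := by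
      exact_mod_cast h3
    exact h6.trans (mul_le_mul h4 h5 (Nat.cast_nonneg _) (by linarith))
  calc ((#S' : ℕ) : ℝ) * ((1 + a) * Real.exp (-a))
      ≤ ((2 * a) * (2 * (1 + a))) * ((1 + a) * Real.exp (-a)) :=
        mul_le_mul_of_nonneg_right hcard (by positivity)
    _ = (4 * a * (1 + a) ^ 2) * Real.exp (-a) := by ring
    _ ≤ (32 * a ^ 3) * Real.exp (-a) := by
        refine mul_le_mul_of_nonneg_right ?_ (Real.exp_pos _).le
        nlinarith [mul_nonneg (by linarith : (0 : ℝ) ≤ a) (by nlinarith : (0 : ℝ) ≤ a ^ 2 - 1)]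

open Classical in
/-- The error in progressions by characters. -/
lemma B5_chars {a : ℝ} {m b : ℕ} (hm0 : 0 < m) (hb : Nat.Coprime b m) :
    |∑ n ∈ Ioc 0 (NN 1 a) with n ≡ b [MOD m], vonMangoldt n * wt 1 a n
      - (∑ n ∈ Ioc 0 (NN 1 a), vonMangoldt n * wt 1 a n) / (Nat.totient m : ℝ)|
    ≤ (1 / (Nat.totient m : ℝ)) *
      ∑ χ ∈ (univ : Finset (DirichletCharacter ℂ m)).filter (fun χ => χ ≠ 1), ‖TT χ 1 a‖
      + ∑ n ∈ Ioc 0 (NN 1 a) with ¬ Nat.Coprime n m, vonMangoldt n * wt 1 a n := by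
  set S := (univ : Finset (DirichletCharacter ℂ m)).filter (fun χ => χ ≠ 1) with hS
  have hSmem : ∀ χ : DirichletCharacter ℂ m, χ ∈ S ↔ χ ≠ 1 := fun χ => by simp [hS]
  have : NeZero m := ⟨hm0.ne'⟩
  set N := NN 1 a with hN
  set f : ℕ → ℝ := fun n => vonMangoldt n * wt 1 a n with hf
  have hφ : (0 : ℝ) < Nat.totient m := by exact_mod_cast Nat.totient_pos.mpr hm0
  have hφ1 : (1 : ℝ) ≤ Nat.totient m := by exact_mod_cast Nat.totient_pos.mpr hm0
  have hbu : IsUnit (b : ZMod m) := (ZMod.isUnit_iff_coprime b m).mpr hb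
  -- orthogonality
  have h1 : ((Nat.totient m * ∑ n ∈ Ioc 0 N with n ≡ b [MOD m], f n : ℝ) : ℂ)
      = ∑ χ : DirichletCharacter ℂ m, χ (b : ZMod m)⁻¹ * TT χ 1 a := by
    have e1 : ∀ χ : DirichletCharacter ℂ m, χ (b : ZMod m)⁻¹ * TT χ 1 a
        = ∑ n ∈ Ioc 0 N, (f n : ℂ) * (χ (b : ZMod m)⁻¹ * χ (n : ZMod m)) := by
      intro χ
      rw [TT, mul_sum]
      refine sum_congr rfl fun n _ => ?_
      simp only [hf]
      push_cast
      ring
    rw [sum_congr rfl (fun χ _ => e1 χ), sum_comm]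
    have e2 : ∀ n ∈ Ioc 0 N, ∑ χ : DirichletCharacter ℂ m,
        (f n : ℂ) * (χ (b : ZMod m)⁻¹ * χ (n : ZMod m))
        = if n ≡ b [MOD m] then (f n : ℂ) * Nat.totient m else 0 := by
      intro n _
      rw [← mul_sum, DirichletCharacter.sum_char_inv_mul_char_eq ℂ hbu]
      have h3 : ((b : ZMod m) = (n : ZMod m)) ↔ n ≡ b [MOD m] := by
        rw [ZMod.natCast_eq_natCast_iff]
        exact ⟨fun h => h.symm, fun h => h.symm⟩
      by_cases h : n ≡ b [MOD m]
      · rw [if_pos h, if_pos (h3.mpr h)]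
      · rw [if_neg h, if_neg (fun h' => h (h3.mp h')), mul_zero]
    rw [sum_congr rfl e2, ← sum_filter]
    push_cast
    rw [mul_sum]
    exact sum_congr rfl fun n _ => by ring
  -- the trivial character
  have h2 : TT (1 : DirichletCharacter ℂ m) 1 a
      = ((∑ n ∈ Ioc 0 N, f n - ∑ n ∈ Ioc 0 N with ¬ Nat.Coprime n m, f n : ℝ) : ℂ) := by
    have e1 : ∑ n ∈ Ioc 0 N, f n - ∑ n ∈ Ioc 0 N with ¬ Nat.Coprime n m, f n
        = ∑ n ∈ Ioc 0 N, (if Nat.Coprime n m then f n else 0) := by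
      rw [sum_filter, ← sum_sub_distrib]
      refine sum_congr rfl fun n _ => ?_
      by_cases h : Nat.Coprime n m
      · rw [if_neg (not_not.mpr h), if_pos h, sub_zero]
      · rw [if_pos h, if_neg h, sub_self]
    rw [e1, TT]
    push_cast
    refine sum_congr rfl fun n _ => ?_
    by_cases h : Nat.Coprime n m
    · have hu : IsUnit (n : ZMod m) := (ZMod.isUnit_iff_coprime n m).mpr h
      rw [MulChar.one_apply hu, if_pos h, mul_one]
      simp only [hf]
      push_cast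
      rfl
    · have hu : ¬ IsUnit (n : ZMod m) := fun hu => h ((ZMod.isUnit_iff_coprime n m).mp hu)
      rw [MulChar.map_nonunit _ hu, if_neg h]
      simp
  set bad := ∑ n ∈ Ioc 0 N with ¬ Nat.Coprime n m, f n with hbad
  have hbad0 : 0 ≤ bad := sum_nonneg fun n _ =>
    mul_nonneg vonMangoldt_nonneg (Pool.Agent.helper85.MT.wt_nonneg _ _ _)
  have h3 : ((Nat.totient m * ∑ n ∈ Ioc 0 N with n ≡ b [MOD m], f n - ∑ n ∈ Ioc 0 N, f n
        + bad : ℝ) : ℂ)
      = ∑ χ ∈ S,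
        χ (b : ZMod m)⁻¹ * TT χ 1 a := by
    have e1 : ∑ χ : DirichletCharacter ℂ m, χ (b : ZMod m)⁻¹ * TT χ 1 a
        = (1 : DirichletCharacter ℂ m) (b : ZMod m)⁻¹ * TT (1 : DirichletCharacter ℂ m) 1 a
          + ∑ χ ∈ S,
            χ (b : ZMod m)⁻¹ * TT χ 1 a := by
      have e0 : S = univ.erase (1 : DirichletCharacter ℂ m) := by
        ext χ
        rw [hSmem, mem_erase]
        simp
      rw [e0]
      exact (add_sum_erase univ (fun χ : DirichletCharacter ℂ m => χ (b : ZMod m)⁻¹ * TT χ 1 a)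
        (mem_univ 1)).symm
    have e2 : (1 : DirichletCharacter ℂ m) (b : ZMod m)⁻¹ = 1 := by
      refine MulChar.one_apply ?_
      obtain ⟨u, hu⟩ := hbu
      rw [← hu, ZMod.inv_coe_unit]
      exact u⁻¹.isUnit
    rw [e2, one_mul, h2] at e1
    have e3 := h1.trans e1
    have e4 : ∑ χ ∈ S,
            χ (b : ZMod m)⁻¹ * TT χ 1 a
        = ((Nat.totient m * ∑ n ∈ Ioc 0 N with n ≡ b [MOD m], f n : ℝ) : ℂ)
          - ((∑ n ∈ Ioc 0 N, f n - bad : ℝ) : ℂ) := by
      rw [e3]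
      ring
    rw [e4]
    push_cast
    ring
  have h4 : |Nat.totient m * ∑ n ∈ Ioc 0 N with n ≡ b [MOD m], f n - ∑ n ∈ Ioc 0 N, f n + bad|
      ≤ ∑ χ ∈ S, ‖TT χ 1 a‖ := by
    rw [← Real.norm_eq_abs, ← Complex.norm_real, h3]
    refine (norm_sum_le _ _).trans (sum_le_sum fun χ _ => ?_)
    rw [norm_mul]
    exact mul_le_of_le_one_left (norm_nonneg _) (DirichletCharacter.norm_le_one χ _)
  have e6 : ∑ n ∈ Ioc 0 N with n ≡ b [MOD m], f n - (∑ n ∈ Ioc 0 N, f n) / (Nat.totient m : ℝ)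
      = (1 / (Nat.totient m : ℝ)) * (Nat.totient m * ∑ n ∈ Ioc 0 N with n ≡ b [MOD m], f n
        - ∑ n ∈ Ioc 0 N, f n + bad) - bad / Nat.totient m := by
    field_simp
    ring
  rw [e6]
  have h7 : |bad / (Nat.totient m : ℝ)| ≤ bad := by
    rw [abs_of_nonneg (by positivity)]
    exact div_le_self hbad0 hφ1
  calc _ ≤ |(1 / (Nat.totient m : ℝ)) * (Nat.totient m * ∑ n ∈ Ioc 0 N with n ≡ b [MOD m], f n
        - ∑ n ∈ Ioc 0 N, f n + bad)| + |bad / (Nat.totient m : ℝ)| := abs_sub _ _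
    _ ≤ (1 / (Nat.totient m : ℝ)) * ∑ χ ∈ S, ‖TT χ 1 a‖ + bad := by
        refine add_le_add ?_ h7
        rw [abs_mul, abs_of_nonneg (by positivity : 0 ≤ 1 / (Nat.totient m : ℝ))]
        exact mul_le_mul_of_nonneg_left h4 (by positivity)

open Classical in
/-- Reduction to primitive characters. -/
lemma B5_prim {a : ℝ} {m : ℕ} (hm0 : 0 < m) :
    ∑ χ ∈ (univ : Finset (DirichletCharacter ℂ m)).filter (fun χ => χ ≠ 1), ‖TT χ 1 a‖ ≤
      ∑ r ∈ m.divisors with 2 ≤ r, TP a r + Nat.totient m *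
        ∑ n ∈ Ioc 0 (NN 1 a) with ¬ Nat.Coprime n m, vonMangoldt n * wt 1 a n := by
  set S := (univ : Finset (DirichletCharacter ℂ m)).filter (fun χ => χ ≠ 1) with hS
  have hSmem : ∀ χ : DirichletCharacter ℂ m, χ ∈ S ↔ χ ≠ 1 := fun χ => by simp [hS]
  have : NeZero m := ⟨hm0.ne'⟩
  set N := NN 1 a with hN
  set bad := ∑ n ∈ Ioc 0 N with ¬ Nat.Coprime n m, vonMangoldt n * wt 1 a n with hbad
  have hbad0 : 0 ≤ bad := sum_nonneg fun n _ =>
    mul_nonneg vonMangoldt_nonneg (Pool.Agent.helper85.MT.wt_nonneg _ _ _)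
  -- comparison with the primitive character
  have h1 : ∀ χ : DirichletCharacter ℂ m, ‖TT χ 1 a‖ ≤ ‖TT χ.primitiveCharacter 1 a‖ + bad := by
    intro χ
    have e1 : ‖TT χ 1 a - TT χ.primitiveCharacter 1 a‖ ≤ bad := by
      rw [TT, TT, ← hN, ← sum_sub_distrib, hbad, sum_filter]
      refine (norm_sum_le _ _).trans (sum_le_sum fun n _ => ?_)
      have e2 : (vonMangoldt n : ℂ) * χ n * (wt 1 a n : ℂ)
          - (vonMangoldt n : ℂ) * χ.primitiveCharacter n * (wt 1 a n : ℂ)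
          = ((vonMangoldt n * wt 1 a n : ℝ) : ℂ) * (χ n - χ.primitiveCharacter n) := by
        push_cast; ring
      rw [e2]
      by_cases h : Nat.Coprime n m
      · have h2 := χ.primitiveCharacter_apply_of_isCoprime (a := (n : ℤ))
          (Nat.isCoprime_iff_coprime.mpr h)
        push_cast at h2
        rw [if_neg (not_not.mpr h), h2, sub_self, mul_zero, norm_zero]
      · have hu : ¬ IsUnit (n : ZMod m) := fun hu => h ((ZMod.isUnit_iff_coprime n m).mp hu)
        rw [if_pos h, MulChar.map_nonunit _ hu, zero_sub, norm_mul, norm_neg, Complex.norm_real,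
          Real.norm_of_nonneg (mul_nonneg vonMangoldt_nonneg
            (Pool.Agent.helper85.MT.wt_nonneg _ _ _))]
        exact mul_le_of_le_one_right
          (mul_nonneg vonMangoldt_nonneg (Pool.Agent.helper85.MT.wt_nonneg _ _ _))
          (DirichletCharacter.norm_le_one _ _)
    have e3 := norm_add_le (TT χ 1 a - TT χ.primitiveCharacter 1 a)
      (TT χ.primitiveCharacter 1 a)
    rw [sub_add_cancel] at e3
    linarith
  have h2 : ∑ χ ∈ S, ‖TT χ 1 a‖ ≤ ∑ χ ∈ S, ‖TT χ.primitiveCharacter 1 a‖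
      + Nat.totient m * bad := by
    refine (sum_le_sum fun χ _ => h1 χ).trans ?_
    rw [sum_add_distrib]
    refine add_le_add le_rfl ?_
    rw [sum_const, nsmul_eq_mul]
    refine mul_le_mul_of_nonneg_right ?_ hbad0
    have h3 : #S ≤ #(univ : Finset (DirichletCharacter ℂ m)) := card_le_card (subset_univ _)
    have h4 : #(univ : Finset (DirichletCharacter ℂ m)) = Nat.totient m := by
      rw [card_univ, ← Nat.card_eq_fintype_card]
      exact DirichletCharacter.card_eq_totient_of_hasEnoughRootsOfUnity ℂ m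
    rw [h4] at h3
    exact_mod_cast h3
  -- injectivity
  set T : Finset (Σ r : ℕ, DirichletCharacter ℂ r) :=
    (m.divisors.filter (fun r => 2 ≤ r)).sigma
      (fun r => (univ : Finset (DirichletCharacter ℂ r)).filter (fun χ => χ.IsPrimitive)) with hT
  set g : DirichletCharacter ℂ m → (Σ r : ℕ, DirichletCharacter ℂ r) :=
    fun χ => ⟨χ.conductor, χ.primitiveCharacter⟩ with hg
  have hinj : Function.Injective g := by
    have hleft : ∀ χ : DirichletCharacter ℂ m,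
        (fun i : (Σ r : ℕ, DirichletCharacter ℂ r) =>
          if h : i.1 ∣ m then DirichletCharacter.changeLevel h i.2 else 1) (g χ) = χ := by
      intro χ
      simp only [hg]
      rw [dif_pos χ.conductor_dvd_level]
      exact χ.changeLevel_primitiveCharacter
    intro χ χ' h
    rw [← hleft χ, ← hleft χ', h]
  have h3 : ∑ χ ∈ S, ‖TT χ.primitiveCharacter 1 a‖ ≤ ∑ i ∈ T, ‖TT i.2 1 a‖ := by
    have e1 : ∑ χ ∈ S, ‖TT χ.primitiveCharacter 1 a‖
        = ∑ i ∈ S.image g, ‖TT i.2 1 a‖ := by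
      rw [sum_image (fun x _ y _ h => hinj h)]
    rw [e1]
    refine sum_le_sum_of_subset_of_nonneg ?_ (fun _ _ _ => norm_nonneg _)
    intro i hi
    rw [mem_image] at hi
    obtain ⟨χ, hχ, rfl⟩ := hi
    rw [hSmem] at hχ
    rw [hT, mem_sigma, mem_filter, mem_filter]
    refine ⟨⟨Nat.mem_divisors.mpr ⟨χ.conductor_dvd_level, hm0.ne'⟩, ?_⟩, mem_univ _,
      χ.primitiveCharacter_isPrimitive⟩
    have h4 : χ.conductor ≠ 0 := DirichletCharacter.conductor_ne_zero χ
    have h5 : χ.conductor ≠ 1 := fun h => hχ (DirichletCharacter.eq_one_iff_conductor_eq_one.mpr h)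
    simp only [hg]
    omega
  have h4 : ∑ i ∈ T, ‖TT i.2 1 a‖ = ∑ r ∈ m.divisors with 2 ≤ r, TP a r := by
    rw [hT, sum_sigma]
    rfl
  rw [← h4]
  linarith

open Classical in
lemma B5_comb {a : ℝ} {m b : ℕ} (hm0 : 0 < m) (hb : Nat.Coprime b m) :
    |∑ n ∈ Ioc 0 (NN 1 a) with n ≡ b [MOD m], vonMangoldt n * wt 1 a n
      - (∑ n ∈ Ioc 0 (NN 1 a), vonMangoldt n * wt 1 a n) / (Nat.totient m : ℝ)|
    ≤ (1 / (Nat.totient m : ℝ)) * ∑ r ∈ m.divisors with 2 ≤ r, TP a r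
      + 2 * ∑ n ∈ Ioc 0 (NN 1 a) with ¬ Nat.Coprime n m, vonMangoldt n * wt 1 a n := by
  have hφ : (0 : ℝ) < Nat.totient m := by exact_mod_cast Nat.totient_pos.mpr hm0
  have h1 := B5_chars (a := a) hm0 hb
  have h2 := B5_prim (a := a) hm0
  have h5 := mul_le_mul_of_nonneg_left h2 (by positivity : 0 ≤ 1 / (Nat.totient m : ℝ))
  refine h1.trans ?_
  have h6 : (1 / (Nat.totient m : ℝ)) * (∑ r ∈ m.divisors with 2 ≤ r, TP a r
      + Nat.totient m * ∑ n ∈ Ioc 0 (NN 1 a) with ¬ Nat.Coprime n m, vonMangoldt n * wt 1 a n)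
      = (1 / (Nat.totient m : ℝ)) * ∑ r ∈ m.divisors with 2 ≤ r, TP a r
      + ∑ n ∈ Ioc 0 (NN 1 a) with ¬ Nat.Coprime n m, vonMangoldt n * wt 1 a n := by
    field_simp
  rw [h6] at h5
  linarith

/-- Proper prime powers do not matter. -/
lemma B5_powers : ∃ C : ℝ, 0 < C ∧ ∀ a : ℝ, 1 ≤ a →
    ∑ n ∈ Ioc 0 (NN 1 a), (vonMangoldt n - lam n) * wt 1 a n ≤ C * Real.exp (-a / 2) ∧
      ∀ n : ℕ, 0 ≤ (vonMangoldt n - lam n) * wt 1 a n := by
  obtain ⟨C, hC, h⟩ := h35_np_sum_le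
  have hnp : ∀ n : ℕ, vonMangoldt n - lam n = h35_np n := by
    intro n
    unfold lam h35_np
    by_cases hn : n.Prime
    · rw [if_pos hn, if_pos hn, vonMangoldt_apply_prime hn, sub_self]
    · rw [if_neg hn, if_neg hn, sub_zero]
  refine ⟨2 * C, by positivity, fun a ha => ⟨?_, ?_⟩⟩
  · have hNle : ((NN 1 a : ℕ) : ℝ) ≤ Real.exp (1 + a) := Nat.floor_le (Real.exp_pos _).le
    calc ∑ n ∈ Ioc 0 (NN 1 a), (vonMangoldt n - lam n) * wt 1 a n
        ≤ ∑ n ∈ Ioc 0 (NN 1 a), h35_np n * Real.exp (-a) := by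
          refine sum_le_sum fun n _ => ?_
          rw [hnp]
          exact mul_le_mul_of_nonneg_left (B5_wt_le n) (h35_np_nonneg n)
      _ = (∑ n ∈ Ioc 0 (NN 1 a), h35_np n) * Real.exp (-a) := by rw [sum_mul]
      _ ≤ (C * √(NN 1 a : ℕ)) * Real.exp (-a) :=
          mul_le_mul_of_nonneg_right (h _) (Real.exp_pos _).le
      _ ≤ (C * √(Real.exp (1 + a))) * Real.exp (-a) := by
          refine mul_le_mul_of_nonneg_right ?_ (Real.exp_pos _).le
          exact mul_le_mul_of_nonneg_left (Real.sqrt_le_sqrt hNle) hC.le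
      _ = C * Real.exp (1 / 2) * Real.exp (-a / 2) := by
          rw [Real.sqrt_eq_rpow, ← Real.exp_mul, mul_assoc, mul_assoc, ← Real.exp_add,
            ← Real.exp_add]
          congr 2
          ring
      _ ≤ 2 * C * Real.exp (-a / 2) := by
          refine mul_le_mul_of_nonneg_right ?_ (Real.exp_pos _).le
          have h2 : Real.exp (1 / 2) ≤ 2 := by
            have h3 : Real.exp (1 / 2) ^ 2 ≤ 2 ^ 2 := by
              rw [← Real.exp_nat_mul]
              have := Real.exp_one_lt_d9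
              norm_num
              linarith
            exact le_of_sq_le_sq h3 (by norm_num)
          nlinarith
  · intro n
    rw [hnp]
    exact mul_nonneg (h35_np_nonneg n) (Pool.Agent.helper85.MT.wt_nonneg _ _ _)

/-- B5: the error in progressions by primitive characters. -/
theorem EP_le : ∃ C a₁ : ℝ, 0 < C ∧ ∀ a : ℝ, a₁ ≤ a → ∀ m b : ℕ, 0 < m →
    (m : ℝ) ≤ Real.exp a → Nat.Coprime b m →
    EP a m b ≤ (1 / (Nat.totient m : ℝ)) * ∑ r ∈ m.divisors with 2 ≤ r, TP a r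
      + C * a ^ 3 * Real.exp (-a / 2) := by
  obtain ⟨C, hC, hpp⟩ := B5_powers
  refine ⟨64 + 2 * C, 1, by positivity, fun a ha m b hm0 hma hb => ?_⟩
  obtain ⟨hpp1, hpp2⟩ := hpp a ha
  have hφ : (0 : ℝ) < Nat.totient m := by exact_mod_cast Nat.totient_pos.mpr hm0
  have hφ1 : (1 : ℝ) ≤ Nat.totient m := by exact_mod_cast Nat.totient_pos.mpr hm0
  have h1 := B5_comb (a := a) hm0 hb
  have h3 := B5_bad_sum ha hm0 hma
  set bad := ∑ n ∈ Ioc 0 (NN 1 a) with ¬ Nat.Coprime n m, vonMangoldt n * wt 1 a n with hbad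
  set TPs := ∑ r ∈ m.divisors with 2 ≤ r, TP a r with hTPs
  -- prime powers
  set P1 := ∑ n ∈ Ioc 0 (NN 1 a) with n ≡ b [MOD m], (vonMangoldt n - lam n) * wt 1 a n with hP1
  set P2 := ∑ n ∈ Ioc 0 (NN 1 a), (vonMangoldt n - lam n) * wt 1 a n with hP2
  have hP10 : 0 ≤ P1 := sum_nonneg fun n _ => hpp2 n
  have hP20 : 0 ≤ P2 := sum_nonneg fun n _ => hpp2 n
  have hP12 : P1 ≤ P2 := sum_le_sum_of_subset_of_nonneg (filter_subset _ _) fun n _ _ => hpp2 n
  have e1 : ∑ n ∈ Ioc 0 (NN 1 a) with n ≡ b [MOD m], lam n * wt 1 a n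
      = ∑ n ∈ Ioc 0 (NN 1 a) with n ≡ b [MOD m], vonMangoldt n * wt 1 a n - P1 := by
    rw [hP1, ← sum_sub_distrib]
    exact sum_congr rfl fun n _ => by ring
  have e2 : pmass a = ∑ n ∈ Ioc 0 (NN 1 a), vonMangoldt n * wt 1 a n - P2 := by
    unfold pmass
    rw [hP2, ← sum_sub_distrib]
    exact sum_congr rfl fun n _ => by ring
  have e3 : EP a m b = |(∑ n ∈ Ioc 0 (NN 1 a) with n ≡ b [MOD m], vonMangoldt n * wt 1 a n
      - (∑ n ∈ Ioc 0 (NN 1 a), vonMangoldt n * wt 1 a n) / (Nat.totient m : ℝ))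
      - (P1 - P2 / (Nat.totient m : ℝ))| := by
    unfold EP
    rw [e1, e2]
    congr 1
    ring
  have h6 : |P1 - P2 / (Nat.totient m : ℝ)| ≤ P2 := by
    have h7 : 0 ≤ P2 / (Nat.totient m : ℝ) := by positivity
    have h8 : P2 / (Nat.totient m : ℝ) ≤ P2 := div_le_self hP20 hφ1
    rw [abs_le]
    constructor <;> linarith
  have h9 : EP a m b ≤ (1 / (Nat.totient m : ℝ)) * TPs + 2 * bad + P2 := by
    rw [e3]
    refine (abs_sub _ _).trans ?_
    linarith
  have h10 : bad ≤ 32 * a ^ 3 * Real.exp (-a / 2) := by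
    refine h3.trans ?_
    refine mul_le_mul_of_nonneg_left (Real.exp_le_exp.2 (by linarith)) (by positivity)
  have h11 : P2 ≤ C * a ^ 3 * Real.exp (-a / 2) := by
    refine hpp1.trans ?_
    refine mul_le_mul_of_nonneg_right ?_ (Real.exp_pos _).le
    have : (1 : ℝ) ≤ a ^ 3 := one_le_pow₀ ha
    nlinarith
  have h12 : 0 ≤ C * a ^ 3 * Real.exp (-a / 2) := by positivity
  have e5 : (64 + 2 * C) * a ^ 3 * Real.exp (-a / 2)
      = 2 * (32 * a ^ 3 * Real.exp (-a / 2)) + 2 * (C * a ^ 3 * Real.exp (-a / 2)) := by ring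
  rw [e5]
  linarith

end Pool.Agent.helper85.FC
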