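import Pool.Agent.helper85.FC.Defs
import Pool.Agent.helper83.MT.TR9
import Pool.Agent.helper17.MT.TR4
import Pool.Agent.helper99.FC.T01

/-!
# Five coefficients, module T4: one indicator, form `m` prime
-/

namespace Pool.Agent.helper85.FC

open Finset Real ArithmeticFunction Pool.Agent.helper39.MT

lemma T4_lam_nonneg (n : ℕ) : 0 ≤ lam n := by
  unfold lam
  split_ifs with h
  · exact Real.log_nonneg (by exact_mod_cast h.one_lt.le)
  · exact le_rfl

lemma T4_lam_le {n : ℕ} (hn : 0 < n) : lam n ≤ Real.log n := by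
  unfold lam
  split_ifs with h
  · exact le_rfl
  · exact Real.log_nonneg (by exact_mod_cast hn)

/-- The sum over `N ≡ A ν + B (mod A D)` is the sum over `n ≡ ν (mod D)` of `N = A n + B`. -/
lemma T4_reindex {A B D ν : ℕ} (hA : 0 < A) {a : ℝ}
    (hB : (B : ℝ) < Real.exp (1 / 2 + a)) (f : ℕ → ℝ) :
    ∑ n ∈ Ioc 0 (NN 1 a) with n ≡ ν [MOD D], f (A * n + B) * wt 1 (a + Real.log A) (A * n + B) =
    ∑ N ∈ Ioc 0 (NN 1 (a + Real.log A)) with N ≡ A * ν + B [MOD A * D],
      f N * wt 1 (a + Real.log A) N := by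
  classical
  have hA0 : (0 : ℝ) < A := by exact_mod_cast hA
  have hA1 : (1 : ℝ) ≤ A := by exact_mod_cast hA
  have hinj : ∀ x ∈ (Ioc 0 (NN 1 a)).filter (fun n => n ≡ ν [MOD D]),
      ∀ y ∈ (Ioc 0 (NN 1 a)).filter (fun n => n ≡ ν [MOD D]),
      A * x + B = A * y + B → x = y := by
    intro x _ y _ h
    have : A * x = A * y := by omega
    exact Nat.eq_of_mul_eq_mul_left hA this
  have h1 : ∑ n ∈ Ioc 0 (NN 1 a) with n ≡ ν [MOD D],
      f (A * n + B) * wt 1 (a + Real.log A) (A * n + B) =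
      ∑ N ∈ ((Ioc 0 (NN 1 a)).filter (fun n => n ≡ ν [MOD D])).image (fun n => A * n + B),
        f N * wt 1 (a + Real.log A) N := by
    rw [sum_image]
    intro x hx y hy h
    exact hinj x hx y hy h
  rw [h1]
  have hmod : ∀ n, (A * n + B ≡ A * ν + B [MOD A * D]) ↔ n ≡ ν [MOD D] := by
    intro n
    constructor
    · intro h
      exact Nat.ModEq.mul_left_cancel' hA.ne' (Nat.ModEq.add_right_cancel' B h)
    · intro h
      exact Nat.ModEq.add_right B (Nat.ModEq.mul_left' A h)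
  refine sum_congr_of_eq_on_inter ?_ ?_ (fun _ _ _ => rfl)
  · intro N hN hN'
    rw [mem_image] at hN
    obtain ⟨n, hn, rfl⟩ := hN
    rw [mem_filter, mem_Ioc] at hn
    have h2 : ¬ (A * n + B ≤ NN 1 (a + Real.log A)) := by
      intro h3
      refine hN' (mem_filter.2 ⟨mem_Ioc.2 ⟨?_, h3⟩, (hmod n).2 hn.2⟩)
      have := Nat.mul_pos hA hn.1.1
      omega
    rw [TR9.wt_zero_right one_pos, mul_zero]
    have h3 : NN 1 (a + Real.log A) < A * n + B := not_le.1 h2
    unfold NN at h3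
    exact (Nat.lt_of_floor_lt h3).le
  · intro N hN hN'
    rw [mem_filter, mem_Ioc] at hN
    by_contra hne
    have hw : wt 1 (a + Real.log A) N ≠ 0 := right_ne_zero_of_mul hne
    have h3 : Real.exp (1 / 2 + (a + Real.log A)) < N := by
      by_contra h4
      exact hw (TR9.wt_zero_left one_pos (not_lt.1 h4))
    have h5 : (N : ℝ) < Real.exp (1 + (a + Real.log A)) := by
      by_contra h4
      exact hw (TR9.wt_zero_right one_pos (not_lt.1 h4))
    rw [← add_assoc, Real.exp_add, Real.exp_log hA0] at h3 h5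
    have hBN : B < N := by
      have : (B : ℝ) < N := by nlinarith [Real.exp_pos (1 / 2 + a)]
      exact_mod_cast this
    have hNB : N ≡ B [MOD A] := by
      have h6 : N ≡ A * ν + B [MOD A] := Nat.ModEq.of_mul_right D hN.2
      refine h6.trans ?_
      have : A * ν + B ≡ 0 + B [MOD A] :=
        Nat.ModEq.add_right B ((Nat.modEq_zero_iff_dvd).2 (dvd_mul_right A ν))
      rwa [zero_add] at this
    obtain ⟨n, hn⟩ := (Nat.modEq_iff_dvd' hBN.le).1 hNB.symm
    have hN2 : N = A * n + B := by omega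
    refine hN' (mem_image.2 ⟨n, mem_filter.2 ⟨mem_Ioc.2 ⟨?_, ?_⟩, ?_⟩, hN2.symm⟩)
    · rcases Nat.eq_zero_or_pos n with h0 | h0
      · rw [h0] at hN2; omega
      · exact h0
    · unfold NN
      rw [Nat.le_floor_iff (Real.exp_pos _).le]
      have h7 : (A : ℝ) * n + B < Real.exp (1 + a) * A := by
        have : ((N : ℕ) : ℝ) = A * n + B := by rw [hN2]; push_cast; ring
        linarith
      have h8 : (0 : ℝ) ≤ B := Nat.cast_nonneg B
      nlinarith
    · rw [hN2] at hN
      exact (hmod n).1 hN.2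

/-- The error made by replacing the weight. -/
lemma T4_shift_error {A B : ℕ} {C₁ : ℝ} (hA : 0 < A) (hC₁ : 0 < C₁) : ∃ C : ℝ, 0 < C ∧
    ∀ a : ℝ, 1 ≤ a → ∀ N : ℕ, (N : ℝ) ≤ Real.exp (1 + a) →
      ∑ n ∈ Ioc 0 N, lam (A * n + B) *
        (if Real.exp a ≤ n ∧ (n : ℝ) ≤ Real.exp (a + 2) then C₁ / (n : ℝ) ^ 2 else 0)
        ≤ C * a * Real.exp (-a) := by
  refine ⟨2 * C₁ * ((A : ℝ) + B + 4), by positivity, ?_⟩
  intro a ha N hN
  set y : ℝ := Real.exp a with hy
  have hy0 : 0 < y := by positivity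
  set K : ℕ := ⌈y⌉₊ - 1 with hK
  have hceil : 1 ≤ ⌈y⌉₊ := Nat.one_le_iff_ne_zero.2 (by
    rw [Ne, Nat.ceil_eq_zero]; exact not_le.2 hy0)
  have hterm : ∀ n ∈ Ioc 0 N, lam (A * n + B) *
        (if y ≤ n ∧ (n : ℝ) ≤ Real.exp (a + 2) then C₁ / (n : ℝ) ^ 2 else 0) ≤
        ((A : ℝ) + B + (1 + a)) * C₁ * (if K < n then (((n : ℝ)) ^ 2)⁻¹ else 0) := by
    intro n hn
    rw [mem_Ioc] at hn
    have hn1 : (1 : ℝ) ≤ n := by exact_mod_cast hn.1
    have hn0 : (0 : ℝ) < n := by linarith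
    have hA1 : (1 : ℝ) ≤ A := by exact_mod_cast hA
    have hB0 : (0 : ℝ) ≤ B := Nat.cast_nonneg B
    by_cases hyn : y ≤ n ∧ (n : ℝ) ≤ Real.exp (a + 2)
    · have hKn : K < n := by
        have : ⌈y⌉₊ ≤ n := Nat.ceil_le.2 hyn.1
        omega
      rw [if_pos hyn, if_pos hKn]
      have h1 : lam (A * n + B) ≤ (A : ℝ) + B + (1 + a) := by
        have h0 : 0 < A * n + B := by
          have := Nat.mul_pos hA hn.1
          omega
        refine (T4_lam_le h0).trans ?_
        have h2 : (((A * n + B : ℕ)) : ℝ) ≤ ((A : ℝ) + B) * n := by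
          push_cast
          nlinarith
        have h3 : (0 : ℝ) < ((A * n + B : ℕ) : ℝ) := by
          push_cast
          positivity
        have h4 := Real.log_le_log h3 h2
        rw [Real.log_mul (by positivity) hn0.ne'] at h4
        have h5 := Real.log_le_sub_one_of_pos (show (0 : ℝ) < (A : ℝ) + B by positivity)
        have h6 : Real.log n ≤ 1 + a := by
          rw [← Real.log_exp (1 + a)]
          exact Real.log_le_log hn0 ((Nat.cast_le.2 hn.2).trans hN)
        linarith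
      calc lam (A * n + B) * (C₁ / (n : ℝ) ^ 2)
          ≤ ((A : ℝ) + B + (1 + a)) * (C₁ / (n : ℝ) ^ 2) :=
            mul_le_mul_of_nonneg_right h1 (by positivity)
        _ = _ := by rw [div_eq_mul_inv]; ring
    · rw [if_neg hyn, mul_zero]
      split_ifs <;> positivity
  refine (sum_le_sum hterm).trans ?_
  rw [← mul_sum, ← sum_filter]
  have hsub : (Ioc 0 N).filter (fun n => K < n) ⊆ Ioo K (N + 1) := by
    intro n hn
    rw [mem_filter, mem_Ioc] at hn
    rw [mem_Ioo]
    omega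
  have hsum : ∑ n ∈ (Ioc 0 N).filter (fun n => K < n), (((n : ℝ)) ^ 2)⁻¹ ≤ 2 / y := by
    refine (sum_le_sum_of_subset_of_nonneg hsub fun _ _ _ => by positivity).trans ?_
    refine (sum_Ioo_inv_sq_le K (N + 1)).trans ?_
    refine div_le_div_of_nonneg_left (by norm_num) hy0 ?_
    have h1 : (K : ℝ) + 1 = (⌈y⌉₊ : ℝ) := by
      have : K + 1 = ⌈y⌉₊ := by omega
      exact_mod_cast this
    rw [h1]
    exact Nat.le_ceil y
  have h9 : (A : ℝ) + B + (1 + a) ≤ ((A : ℝ) + B + 4) * a := by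
    have h10 : (0 : ℝ) ≤ (A : ℝ) + B := by positivity
    nlinarith
  calc ((A : ℝ) + B + (1 + a)) * C₁ * ∑ n ∈ (Ioc 0 N).filter (fun n => K < n), (((n : ℝ)) ^ 2)⁻¹
      ≤ (((A : ℝ) + B + 4) * a) * C₁ * (2 / y) := by
        refine mul_le_mul (mul_le_mul_of_nonneg_right h9 hC₁.le) hsum
          (sum_nonneg fun _ _ => by positivity) (by positivity)
    _ = 2 * C₁ * ((A : ℝ) + B + 4) * a * Real.exp (-a) := by
        rw [hy, Real.exp_neg]
        field_simp

/-- T4 from the statement of T1. -/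
theorem T4_S2_one_of
    (hshift : ∀ (A B : ℕ) (_ : 0 < A), ∃ C a₁ : ℝ, 0 < C ∧ ∀ a : ℝ, a₁ ≤ a → ∀ n : ℕ, 0 < n →
      |wt 1 a n - A * wt 1 (a + Real.log A) (A * n + B)| ≤
        (if Real.exp a ≤ n ∧ (n : ℝ) ≤ Real.exp (a + 2) then C / (n : ℝ) ^ 2 else 0))
    {k D₀ W : ℕ} {A B : Fin k → ℕ} (h : Std k D₀ A B W) (_hk : 2 ≤ k)
    (_hD : 4 * k + 4 ≤ D₀) (m : Fin k) :
    ∃ C a₁ : ℝ, 0 < C ∧ ∀ a : ℝ, a₁ ≤ a → ∀ R : ℕ, (R : ℝ) ≤ Real.exp (a / 2) →
      ∀ τ : PS W R → Option (Fin k), (dd (fun p : PS W R => (p : ℕ)) τ : ℝ) ≤ Real.exp a →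
      ∃ b : ℕ, Nat.Coprime b (A m * dd (fun p : PS W R => (p : ℕ)) τ) ∧
      |∑ n ∈ Ioc 0 (NN 1 a), wt 1 a n * lam (A m * n + B m) * ind τ (pat A B (PS W R) n)
        - (W : ℝ) / Nat.totient W * pmass (a + Real.log (A m)) *
            Ex (fun p : PS W R => mu1 m (p : ℝ)) (ind τ)|
      ≤ A m * EP (a + Real.log (A m)) (A m * dd (fun p : PS W R => (p : ℕ)) τ) b
        + C * a * Real.exp (-a) := by
  obtain ⟨C₂, L₂, hC₂, H₂⟩ := hshift (A m) (B m) (h.Apos m)
  obtain ⟨C₃, hC₃, H₃⟩ := T4_shift_error (A := A m) (B := B m) (h.Apos m) hC₂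
  refine ⟨C₃, max L₂ (max 1 (2 * (B m : ℝ))), by positivity, ?_⟩
  intro a hL R hR τ hτ
  have hL2 : L₂ ≤ a := (le_max_left _ _).trans hL
  have hL3 : 1 ≤ a := (le_max_left _ _).trans ((le_max_right _ _).trans hL)
  have hL4 : 2 * (B m : ℝ) ≤ a := (le_max_right _ _).trans ((le_max_right _ _).trans hL)
  have hL0 : 0 < a := by linarith
  have hA0 : 0 < A m := h.Apos m
  have hA0' : (0 : ℝ) < A m := by exact_mod_cast hA0
  have hBL : (B m : ℝ) < Real.exp (1 / 2 + a) := by
    have := Real.add_one_le_exp (1 / 2 + a)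
    linarith
  have hexp : 0 < Real.exp (-a) := Real.exp_pos _
  obtain ⟨ν, hν, hind, hdiv⟩ := ind_pat h τ
  have hpr : ∀ p : PS W R, ((fun p : PS W R => (p : ℕ)) p).Prime := fun p => (mem_PS.1 p.2).2.1
  have hinj : Function.Injective (fun p : PS W R => (p : ℕ)) := fun _ _ h => Subtype.ext h
  have hEx := TR9.Ex_mu1 m (fun p : PS W R => (p : ℕ)) hpr hinj τ
  have hpD : ∀ p : PS W R, τ p ≠ none → (p : ℕ) ∣ dd (fun p : PS W R => (p : ℕ)) τ := by
    intro p hp
    unfold dd
    have := dvd_prod_of_mem (fun p : PS W R => if τ p = none then 1 else (p : ℕ)) (mem_univ p)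
    simpa [hp] using this
  set D := dd (fun p : PS W R => (p : ℕ)) τ with hD
  have hD0 : 0 < D := by omega
  by_cases hm : ∃ p, τ p = some m
  · refine ⟨1, Nat.coprime_one_left _, ?_⟩
    rw [hEx, if_pos hm, mul_zero, sub_zero]
    obtain ⟨p, hp⟩ := hm
    have hzero : ∑ n ∈ Ioc 0 (NN 1 a), wt 1 a n * lam (A m * n + B m) *
          ind τ (pat A B (PS W R) n) = 0 := by
      refine sum_eq_zero fun n hn => ?_
      rw [hind]
      by_cases hmod : n ≡ ν [MOD D]
      · rw [if_pos hmod, mul_one]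
        by_cases hprime : (A m * n + B m).Prime
        · have h1 : (p : ℕ) ∣ A m * n + B m := by
            have h2 : n ≡ ν [MOD (p : ℕ)] := hmod.of_dvd (hpD p (by simp [hp]))
            have h3 : A m * n + B m ≡ A m * ν + B m [MOD (p : ℕ)] :=
              Nat.ModEq.add_right _ (Nat.ModEq.mul_left _ h2)
            exact (Nat.ModEq.dvd_iff h3 dvd_rfl).2 (hdiv p m hp)
          have h2 : (p : ℕ) = A m * n + B m :=
            (Nat.prime_dvd_prime_iff_eq (mem_PS.1 p.2).2.1 hprime).1 h1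
          have h3 : (n : ℝ) ≤ Real.exp (1 / 2 + a) := by
            have h4 : n ≤ R := by
              have h5 := (mem_PS.1 p.2).1
              have h6 : n ≤ A m * n := Nat.le_mul_of_pos_left n hA0
              omega
            have h7 : (n : ℝ) ≤ R := by exact_mod_cast h4
            refine h7.trans (hR.trans (Real.exp_le_exp.2 (by linarith)))
          rw [TR9.wt_zero_left one_pos h3, zero_mul]
        · unfold lam
          rw [if_neg hprime, mul_zero]
      · rw [if_neg hmod, mul_zero]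
    rw [hzero, abs_zero]
    have hEP : 0 ≤ (A m : ℝ) * EP (a + Real.log (A m)) (A m * D) 1 :=
      mul_nonneg hA0'.le (abs_nonneg _)
    have : 0 ≤ C₃ * a * Real.exp (-a) := by positivity
    linarith
  · refine ⟨A m * ν + B m, ?_, ?_⟩
    · have key : ∀ q : ℕ, q.Prime → q ∣ A m * D → ¬ q ∣ A m * ν + B m := by
        intro q hq hqd hqb
        rcases (Nat.Prime.dvd_mul hq).1 hqd with hqA | hqD
        · have h1 : q ∣ B m := (Nat.dvd_add_right (hqA.mul_right ν)).1 hqb
          have h2 : q ∣ W := (h.dvdA m q hq).1 hqA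
          have h3 := Nat.dvd_gcd h1 h2
          rw [(h.cop m : Nat.gcd _ _ = 1)] at h3
          exact hq.one_lt.ne' (Nat.dvd_one.1 h3)
        · have h1 : ∃ p : PS W R, τ p ≠ none ∧ q = (p : ℕ) := by
            rw [hD] at hqD
            unfold dd at hqD
            obtain ⟨p, _, hp⟩ := (Prime.dvd_finsetProd_iff hq.prime _).1 hqD
            refine ⟨p, ?_, ?_⟩
            · intro h0
              rw [if_pos h0] at hp
              exact hq.one_lt.ne' (Nat.dvd_one.1 hp)
            · split_ifs at hp with h0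
              · exact absurd (Nat.dvd_one.1 hp) hq.one_lt.ne'
              · exact (Nat.prime_dvd_prime_iff_eq hq (mem_PS.1 p.2).2.1).1 hp
          obtain ⟨p, hp0, rfl⟩ := h1
          obtain ⟨i, hi⟩ := Option.ne_none_iff_exists'.1 hp0
          have him : i ≠ m := fun h' => hm ⟨p, by rw [hi, h']⟩
          have h2 := hdiv p i hi
          have h3 : ((p : ℕ) : ℤ) ∣ (A i : ℤ) * B m - (A m : ℤ) * B i := by
            have h4 : ((p : ℕ) : ℤ) ∣ (A i : ℤ) * ((A m : ℤ) * ν + B m) := by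
              refine Dvd.dvd.mul_left ?_ _
              exact_mod_cast hqb
            have h5 : ((p : ℕ) : ℤ) ∣ (A m : ℤ) * ((A i : ℤ) * ν + B i) := by
              refine Dvd.dvd.mul_left ?_ _
              exact_mod_cast h2
            have h6 := dvd_sub h4 h5
            have h7 : (A i : ℤ) * ((A m : ℤ) * ν + B m) - (A m : ℤ) * ((A i : ℤ) * ν + B i) =
                (A i : ℤ) * B m - (A m : ℤ) * B i := by ring
            rwa [h7] at h6
          exact (mem_PS.1 p.2).2.2 (h.det i m him p hq h3)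
      by_contra hcop
      obtain ⟨q, hq, h1, h2⟩ := Nat.Prime.not_coprime_iff_dvd.1 hcop
      exact key q hq h2 h1
    · rw [hEx, if_neg hm]
      have hDcop : Nat.Coprime (A m) D := by
        by_contra hcop
        obtain ⟨q, hq, h1, h2⟩ := Nat.Prime.not_coprime_iff_dvd.1 hcop
        rw [hD] at h2
        unfold dd at h2
        obtain ⟨p, _, hp⟩ := (Prime.dvd_finsetProd_iff hq.prime _).1 h2
        split_ifs at hp with h0
        · exact absurd (Nat.dvd_one.1 hp) hq.one_lt.ne'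
        · have h3 := (Nat.prime_dvd_prime_iff_eq hq (mem_PS.1 p.2).2.1).1 hp
          exact (mem_PS.1 p.2).2.2 (h3 ▸ (h.dvdA m q hq).1 h1)
      have htot : Nat.totient (A m * D) = Nat.totient (A m) * Nat.totient D :=
        Nat.totient_mul hDcop
      have hratio := TR9.totient_ratio hA0 h.Wpos (h.dvdA m)
      set S : ℝ := pmass (a + Real.log (A m)) with hS
      set Sb : ℝ := ∑ N ∈ Ioc 0 (NN 1 (a + Real.log (A m))) with
            N ≡ A m * ν + B m [MOD A m * D], lam N * wt 1 (a + Real.log (A m)) N with hSb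
      have hEEdef : EP (a + Real.log (A m)) (A m * D) (A m * ν + B m)
          = |Sb - S / (Nat.totient (A m * D) : ℝ)| := rfl
      have hD0' : (0 : ℝ) < Nat.totient D := by exact_mod_cast Nat.totient_pos.2 hD0
      have hAt : (0 : ℝ) < Nat.totient (A m) := by exact_mod_cast Nat.totient_pos.2 hA0
      have hmain : (W : ℝ) / Nat.totient W * S * (1 / (Nat.totient D : ℝ)) =
          A m * (S / (Nat.totient (A m * D) : ℝ)) := by
        rw [← hratio, htot]
        push_cast
        field_simp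
      rw [hmain]
      have hre := T4_reindex (A := A m) (B := B m) (D := D) (ν := ν) hA0 hBL
        (fun N => lam N)
      have hlhs : ∑ n ∈ Ioc 0 (NN 1 a), wt 1 a n * lam (A m * n + B m) *
          ind τ (pat A B (PS W R) n) =
          ∑ n ∈ Ioc 0 (NN 1 a) with n ≡ ν [MOD D], wt 1 a n * lam (A m * n + B m) := by
        rw [sum_filter]
        refine sum_congr rfl fun n _ => ?_
        rw [hind]
        split_ifs <;> simp
      rw [hlhs]
      have hdiff : |∑ n ∈ Ioc 0 (NN 1 a) with n ≡ ν [MOD D],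
          wt 1 a n * lam (A m * n + B m) - A m * Sb| ≤ C₃ * a * Real.exp (-a) := by
        rw [hSb, ← hre, mul_sum, ← sum_sub_distrib]
        refine (abs_sum_le_sum_abs _ _).trans ?_
        refine le_trans ?_ (H₃ a hL3 (NN 1 a) ?_)
        · refine (sum_le_sum_of_subset_of_nonneg (filter_subset _ _)
            fun _ _ _ => abs_nonneg _).trans ?_
          refine sum_le_sum fun n hn => ?_
          have h1 := H₂ a hL2 n (mem_Ioc.1 hn).1
          have hΛ : 0 ≤ lam (A m * n + B m) := T4_lam_nonneg _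
          have h2 : wt 1 a n * lam (A m * n + B m) -
              A m * (lam (A m * n + B m) * wt 1 (a + Real.log (A m)) (A m * n + B m)) =
              lam (A m * n + B m) *
                (wt 1 a n - A m * wt 1 (a + Real.log (A m)) (A m * n + B m)) := by ring
          rw [h2, abs_mul, abs_of_nonneg hΛ]
          exact mul_le_mul_of_nonneg_left h1 hΛ
        · unfold NN
          exact Nat.floor_le (Real.exp_pos _).le
      rw [hEEdef]
      have hfin : |(∑ n ∈ Ioc 0 (NN 1 a) with n ≡ ν [MOD D],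
          wt 1 a n * lam (A m * n + B m)) - A m * (S / (Nat.totient (A m * D) : ℝ))| ≤
          |∑ n ∈ Ioc 0 (NN 1 a) with n ≡ ν [MOD D],
          wt 1 a n * lam (A m * n + B m) - A m * Sb| +
          |A m * Sb - A m * (S / (Nat.totient (A m * D) : ℝ))| := abs_sub_le _ _ _
      have habs : |A m * Sb - A m * (S / (Nat.totient (A m * D) : ℝ))| =
          A m * |Sb - S / (Nat.totient (A m * D) : ℝ)| := by
        rw [← mul_sub, abs_mul, abs_of_pos hA0']
      rw [habs] at hfin
      linarith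

/-- T4: one indicator, form `m` prime. -/
theorem S2_one {k D₀ W : ℕ} {A B : Fin k → ℕ} (h : Std k D₀ A B W) (hk : 2 ≤ k)
    (hD : 4 * k + 4 ≤ D₀) (m : Fin k) :
    ∃ C a₁ : ℝ, 0 < C ∧ ∀ a : ℝ, a₁ ≤ a → ∀ R : ℕ, (R : ℝ) ≤ Real.exp (a / 2) →
      ∀ τ : PS W R → Option (Fin k), (dd (fun p : PS W R => (p : ℕ)) τ : ℝ) ≤ Real.exp a →
      ∃ b : ℕ, Nat.Coprime b (A m * dd (fun p : PS W R => (p : ℕ)) τ) ∧
      |∑ n ∈ Ioc 0 (NN 1 a), wt 1 a n * lam (A m * n + B m) * ind τ (pat A B (PS W R) n)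
        - (W : ℝ) / Nat.totient W * pmass (a + Real.log (A m)) *
            Ex (fun p : PS W R => mu1 m (p : ℝ)) (ind τ)|
      ≤ A m * EP (a + Real.log (A m)) (A m * dd (fun p : PS W R => (p : ℕ)) τ) b
        + C * a * Real.exp (-a) :=
  T4_S2_one_of wt_shift1 h hk hD m

end Pool.Agent.helper85.FC
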